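import Mathlib
import Pool.Agent.V11309.ABase
import Pool.Agent.V11309.EraseNormal

/-! The set of the orders of `Q`-normality of a real number can be prescribed arbitrarily. -/

set_option autoImplicit false

namespace Pool.Agent.Results.MP_f007e6_nt.Orders

open Filter Topology Finset Pool.Agent.V11309.Cantor Pool.Agent.V11309.EraseNormal

/-- `N_k(Q)`: the set of the real numbers which are `Q`-normal of order `k`. -/
def NOrder (Q : ℕ → ℕ) (k : ℕ) : Set ℝ := NormalAP Q k 1 0

/-- `Q` is fully divergent: `k`-divergent for every `k ≥ 1`. -/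
def FullyDivergent (Q : ℕ → ℕ) : Prop := ∀ k, 1 ≤ k → Tendsto (weight Q k 1 0) atTop atTop

/-- Q1 holds: for every partition of the positive integers into non-empty sets `A` and `B` there
are a fully divergent basic sequence `Q` and a real number which is `Q`-normal of every order in
`A` and of no order in `B`. In fact every fully divergent `Q` which is infinite in limit will do. -/
theorem result (A B : Set ℕ) (hAB : A ∪ B = {k | 1 ≤ k}) (hdisj : A ∩ B = ∅)
    (_hA : A.Nonempty) (_hB : B.Nonempty) :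
    (∃ Q : ℕ → ℕ, (∀ n, 1 ≤ n → 2 ≤ Q n) ∧ Tendsto Q atTop atTop ∧ FullyDivergent Q) ∧
    ∀ Q : ℕ → ℕ, (∀ n, 1 ≤ n → 2 ≤ Q n) → Tendsto Q atTop atTop → FullyDivergent Q →
      ∃ x : ℝ, x ∈ (⋂ k ∈ A, NOrder Q k) \ ⋃ j ∈ B, NOrder Q j := by
  constructor
  · exact ⟨_, fun n _ => Pool.Agent.V11309.ABase.two_le_Q n, Pool.Agent.V11309.ABase.Q_tendsto,
      fun k hk => Pool.Agent.V11309.ABase.divergentI k 1 0 hk le_rfl (by norm_num)⟩
  intro Q hQ hQt hw
  obtain ⟨E, hE⟩ := exists_good Q hQ hQt
  have hx := fun k hk => orders hQ hQt hw hE B k hk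
  refine ⟨Pool.Agent.V11309.FromDigits.xx Q
    (Pool.Agent.V11309.Erase.eraseZ Q E fun t _ => t ∈ B), ?_, ?_⟩
  · rw [Set.mem_iInter₂]
    intro k hk
    have h1 : 1 ≤ k := by
      have : k ∈ A ∪ B := Or.inl hk
      rw [hAB] at this
      exact this
    refine (hx k h1).2 fun hkB => ?_
    have : k ∈ A ∩ B := ⟨hk, hkB⟩
    rw [hdisj] at this
    exact this
  · intro h
    rw [Set.mem_iUnion₂] at h
    obtain ⟨j, hj, hxj⟩ := h
    have h1 : 1 ≤ j := by
      have : j ∈ A ∪ B := Or.inr hj
      rw [hAB] at this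
      exact this
    exact (hx j h1).1 hxj hj

end Pool.Agent.Results.MP_f007e6_nt.Orders
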